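import Pool.Agent.H87.AO.GPI
import Pool.Agent.H78.CUR.NU

/-!
Modules FRX and FRI: internal bases and external bases.
-/

set_option linter.unusedVariables false
set_option linter.unusedSectionVars false
set_option synthInstance.maxSize 100000

namespace AO

open SW

section
variable {N : Type} [SetStr N] [ZF N]

/-- finite sets of members of the model are in the model -/
theorem ex_fin_set (S : Set N) (hS : S.Finite) : ∃ a : N, ∀ x, E x a ↔ x ∈ S := by
  refine Set.Finite.induction_on (motive := fun S _ => ∃ a : N, ∀ x, E x a ↔ x ∈ S) S hS ?_ ?_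
  · exact ⟨emp, fun x => by simp⟩
  · rintro a s _ _ ⟨b, hb⟩
    refine ⟨ins a b, fun x => ?_⟩
    rw [mem_ins, hb, Set.mem_insert_iff, or_comm]

/-- homomorphisms of the model are homomorphisms -/
theorem hom_of_isHom {G m K k h : N} [Group {x : N // E x G}] [Group {x : N // E x K}]
    (hm : Rep G m) (hk : Rep K k) (hh : IsHom G m K k h) :
    ∃ φ : {x : N // E x G} →* {x : N // E x K}, ∀ z, E z h ↔ ∃ a, z = opair a.1 (φ a).1 := by
  obtain ⟨⟨h1, h2⟩, h3⟩ := hh
  have h4 : ∀ a : {x : N // E x G}, ∃ y : {x : N // E x K}, E (opair a.1 y.1) h ∧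
      ∀ y', E (opair a.1 y') h → y' = y.1 := by
    intro a
    obtain ⟨y, hy, hu⟩ := h2 a.1 a.2
    rw [pairIn_iff] at hy
    obtain ⟨x', y', hx', hy', e⟩ := h1 _ hy
    rw [isOP_iff, opair_inj] at e
    obtain ⟨rfl, rfl⟩ := e
    exact ⟨⟨y, hy'⟩, hy, fun y' h' => hu y' (pairIn_iff.2 h')⟩
  choose φ hφ hφu using h4
  refine ⟨MonoidHom.mk' φ ?_, ?_⟩
  · intro a b
    have := h3 a.1 b.1 (a * b).1 (φ a).1 (φ b).1 (φ (a * b)).1 a.2 b.2 (a * b).2
      ((hm _ _ _).2 rfl) (pairIn_iff.2 (hφ a)) (pairIn_iff.2 (hφ b)) (pairIn_iff.2 (hφ _))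
    exact ((hk _ _ _).1 this).symm
  · intro z
    constructor
    · intro hz
      obtain ⟨x, y, hx, hy, e⟩ := h1 z hz
      rw [isOP_iff] at e
      subst e
      refine ⟨⟨x, hx⟩, ?_⟩
      rw [opair_inj]
      exact ⟨rfl, hφu ⟨x, hx⟩ y hz⟩
    · rintro ⟨a, rfl⟩
      exact hφ a

/-- homomorphisms with graph in the model -/
theorem isHom_of_hom {G m K k h : N} [Group {x : N // E x G}] [Group {x : N // E x K}]
    (hm : Rep G m) (hk : Rep K k) (φ : {x : N // E x G} →* {x : N // E x K})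
    (hh : ∀ z, E z h ↔ ∃ a, z = opair a.1 (φ a).1) : IsHom G m K k h := by
  have h5 : ∀ (a : {x : N // E x G}) (y : N), PairIn a.1 y h → y = (φ a).1 := by
    intro a y hy
    rw [pairIn_iff, hh] at hy
    obtain ⟨a', e⟩ := hy
    rw [opair_inj] at e
    have : a = a' := Subtype.ext e.1
    rw [this]
    exact e.2
  refine ⟨⟨fun z hz => ?_, fun x hx => ?_⟩, ?_⟩
  · obtain ⟨a, rfl⟩ := (hh z).1 hz
    exact ⟨a.1, (φ a).1, a.2, (φ a).2, isOP_iff.2 rfl⟩
  · exact ⟨(φ ⟨x, hx⟩).1, pairIn_iff.2 ((hh _).2 ⟨⟨x, hx⟩, rfl⟩), fun y' hy' => h5 ⟨x, hx⟩ y' hy'⟩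
  · intro a b c x y z ha hb hc h1 h2 h3 h4
    have e1 := (hm ⟨a, ha⟩ ⟨b, hb⟩ ⟨c, hc⟩).1 h1
    rw [h5 ⟨a, ha⟩ x h2, h5 ⟨b, hb⟩ y h3, h5 ⟨c, hc⟩ z h4, hk, ← map_mul, e1]

end

/-- module FRX -/
theorem frx (h1 : GPIStmt) (h2 : GPJStmt) (h3 : GPGStmt) (h4 : GENStmt) (h5 : RFGStmt) :
    FRXStmt := by
  intro N _ _ hS G m B hG hB
  refine ⟨hB.1, fun [_] hm => ⟨?_, ?_⟩⟩
  · -- independence
    rw [injective_iff_map_eq_one]
    intro g hg
    by_contra hne
    obtain ⟨K, _, _, f, hf1, hf2, -⟩ := h5 _ g hne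
    -- the internal group
    obtain ⟨e⟩ : Nonempty (K ≃ Fin (Nat.card K)) := ⟨Finite.equivFin K⟩
    obtain ⟨K', hK'⟩ := ex_fin_set (Set.range (fun i : Fin (Nat.card K) => (nu i.1 : N)))
      (Set.finite_range _)
    obtain ⟨k', hk'⟩ := ex_fin_set (N := N)
      (Set.range (fun p : K × K => (opair (opair (nu (e p.1).1) (nu (e p.2).1))
        (nu (e (p.1 * p.2)).1) : N))) (Set.finite_range _)
    have hinj : ∀ x y : K, (nu (e x).1 : N) = nu (e y).1 → x = y := by
      intro x y hxy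
      have := CUR.cur_nu N
      have h6 := this.2.1 _ _ hxy
      exact e.injective (Fin.ext h6)
    let ι : K → {x : N // E x K'} := fun x => ⟨nu (e x).1, (hK' _).2 ⟨e x, rfl⟩⟩
    have hι : Function.Bijective ι := by
      constructor
      · intro x y hxy
        exact hinj x y (congrArg Subtype.val hxy)
      · rintro ⟨y, hy⟩
        obtain ⟨i, rfl⟩ := (hK' y).1 hy
        exact ⟨e.symm i, Subtype.ext (by simp [ι])⟩
    let ε : K ≃ {x : N // E x K'} := Equiv.ofBijective ι hι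
    letI : Group {x : N // E x K'} := ε.symm.group
    have hε : ∀ x y : K, ε (x * y) = ε x * ε y := by
      intro x y
      have := (ε.symm.mulEquiv).map_mul (ε x) (ε y)
      simp only [Equiv.mulEquiv_apply, Equiv.symm_apply_apply] at this
      rw [← this, Equiv.apply_symm_apply]
    have hRep : Rep K' k' := by
      intro a b c
      rw [trp_iff, hk']
      obtain ⟨x, rfl⟩ := ε.surjective a
      obtain ⟨y, rfl⟩ := ε.surjective b
      constructor
      · rintro ⟨p, hp⟩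
        simp only [opair_inj] at hp
        have e1 : p.1 = x := hinj _ _ hp.1.1
        have e2 : p.2 = y := hinj _ _ hp.1.2
        rw [← hε, ← e1, ← e2]
        exact Subtype.ext hp.2
      · intro h6
        rw [← hε] at h6
        rw [← h6]
        exact ⟨(x, y), rfl⟩
    have hKg : IsGroup K' k' := by
      refine h3 N K' k' hRep ?_
      intro a b c ha hb habc
      rw [trp_iff, hk'] at habc
      obtain ⟨p, hp⟩ := habc
      simp only [opair_inj] at hp
      rw [← hp.2]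
      exact (ε (p.1 * p.2)).2
    -- the function
    obtain ⟨F1, hF1⟩ := ex_fin_set (N := N)
      ((fun x : (EX G B) => x.1.1) '' {x | f x ≠ 1}) (hf2.image _)
    obtain ⟨F2, hF2⟩ := ex_fin_set (N := N)
      ((fun x : (EX G B) => opair x.1.1 (ε (f x)).1) '' {x | f x ≠ 1}) (hf2.image _)
    let φ : N := bun (img (diff B F1) (fun b => opair b (ε 1).1)) F2
    have hφ : ∀ z, E z φ ↔ ∃ x : EX G B, z = opair x.1.1 (ε (f x)).1 := by
      intro z
      show E z (bun (img (diff B F1) (fun b => opair b (ε 1).1)) F2) ↔ _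
      rw [mem_bun, mem_img, hF2]
      constructor
      · rintro (⟨b, hb, rfl⟩ | ⟨x, _, rfl⟩)
        · rw [mem_diff, hF1] at hb
          have hbG : E b G := hB.1 b hb.1
          have h6 : f ⟨⟨b, hbG⟩, hb.1⟩ = 1 := by
            by_contra h7
            exact hb.2 ⟨⟨⟨b, hbG⟩, hb.1⟩, h7, rfl⟩
          exact ⟨⟨⟨b, hbG⟩, hb.1⟩, by rw [h6]⟩
        · exact ⟨x, rfl⟩
      · rintro ⟨x, rfl⟩
        by_cases h6 : f x = 1
        · left
          refine ⟨x.1.1, ?_, by rw [h6]⟩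
          rw [mem_diff, hF1]
          refine ⟨x.2, ?_⟩
          rintro ⟨x', hx', e'⟩
          have : x' = x := Subtype.ext (Subtype.ext e')
          rw [this] at hx'
          exact hx' h6
        · right
          exact ⟨x, h6, rfl⟩
    have hfun : IsFunction φ B K' := by
      refine ⟨fun z hz => ?_, fun x hx => ?_⟩
      · obtain ⟨x, rfl⟩ := (hφ z).1 hz
        exact ⟨x.1.1, _, x.2, (ε (f x)).2, isOP_iff.2 rfl⟩
      · refine ⟨(ε (f ⟨⟨x, hB.1 x hx⟩, hx⟩)).1, pairIn_iff.2 ((hφ _).2 ⟨⟨⟨x, hB.1 x hx⟩, hx⟩, rfl⟩),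
          fun y hy => ?_⟩
        rw [pairIn_iff, hφ] at hy
        obtain ⟨x', e'⟩ := hy
        rw [opair_inj] at e'
        have : x' = ⟨⟨x, hB.1 x hx⟩, hx⟩ := Subtype.ext (Subtype.ext e'.1.symm)
        rw [e'.2, this]
    obtain ⟨h, ⟨hh, hfh⟩, -⟩ := hB.2 K' k' φ hKg hfun
    obtain ⟨ψ, hψ⟩ := hom_of_isHom hm hRep hh
    have hψf : ∀ x : EX G B, ψ x.1 = ε (f x) := by
      intro x
      have h6 := hfh _ ((hφ _).2 ⟨x, rfl⟩)
      rw [hψ] at h6
      obtain ⟨a, ha⟩ := h6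
      rw [opair_inj] at ha
      have : a = x.1 := Subtype.ext ha.1.symm
      rw [this] at ha
      exact Subtype.ext ha.2.symm
    -- conclusion
    let εm : K →* {x : N // E x K'} := MonoidHom.mk' ε hε
    have hcomp : ψ.comp (FreeGroup.lift (fun b : EX G B => (b : {x : N // E x G})))
        = εm.comp (FreeGroup.lift f) := by
      ext x
      simp only [MonoidHom.comp_apply, FreeGroup.lift_apply_of]
      exact congrArg Subtype.val (hψf x)
    have h7 := DFunLike.congr_fun hcomp g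
    simp only [MonoidHom.comp_apply] at h7
    rw [hg, map_one] at h7
    apply hf1
    apply ε.injective
    have h8 : εm (FreeGroup.lift f g) = εm 1 := by rw [← h7, map_one]
    exact h8
  · -- generation
    obtain ⟨cl, hcl, hcl2, -⟩ := h4 N hS G m hm
    have hCG : Incl (cl B) G := fun y hy => ((hcl2 B y).1 hy).1
    have hC : IsGroup (cl B) m := by
      rw [h2 N G m (cl B) hG hm hCG]
      refine ⟨Subgroup.closure (EX G B), fun x => ?_⟩
      rw [hcl2]
      exact ⟨fun h => ⟨x.2, h⟩, fun ⟨_, h⟩ => h⟩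
    have hBC : ∀ x, E x B → E x (cl B) := fun x hx =>
      (hcl2 B x).2 ⟨hB.1 x hx, Subgroup.subset_closure hx⟩
    have hφ : ∀ z, E z (img B (fun b => opair b b)) ↔ ∃ b, E b B ∧ z = opair b b := fun z => by
      rw [mem_img]
    have hfun : ∀ C : N, (∀ x, E x B → E x C) → IsFunction (img B (fun b => opair b b)) B C := by
      intro C hC
      refine ⟨fun z hz => ?_, fun x hx => ?_⟩
      · obtain ⟨b, hb, rfl⟩ := (hφ z).1 hz
        exact ⟨b, b, hb, hC b hb, isOP_iff.2 rfl⟩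
      · refine ⟨x, pairIn_iff.2 ((hφ _).2 ⟨x, hx, rfl⟩), fun y hy => ?_⟩
        rw [pairIn_iff, hφ] at hy
        obtain ⟨b, hb, e⟩ := hy
        rw [opair_inj] at e
        rw [e.1, e.2]
    obtain ⟨h, ⟨hh, hfh⟩, -⟩ := hB.2 (cl B) m _ hC (hfun _ hBC)
    obtain ⟨h', ⟨hh', hfh'⟩, hu⟩ := hB.2 G m _ hG (hfun _ hB.1)
    -- `h` is a homomorphism to `G`
    have e1 : h = h' := by
      refine hu h ⟨⟨fun z hz => ?_, hh.1.2⟩, fun a b c x y z ha hb hc h1 h2 h3 h4 => ?_⟩ hfh
      · obtain ⟨x, y, hx, hy, e⟩ := hh.1.1 z hz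
        exact ⟨x, y, hx, hCG y hy, e⟩
      · exact hh.2 a b c x y z ha hb hc h1 h2 h3 h4
    have e2 : img G (fun b => opair b b) = h' := by
      refine hu _ ?_ ?_
      · refine isHom_of_hom hm hm (MonoidHom.id _) (fun z => ?_)
        rw [mem_img]
        constructor
        · rintro ⟨x, hx, rfl⟩
          exact ⟨⟨x, hx⟩, rfl⟩
        · rintro ⟨a, rfl⟩
          exact ⟨a.1, a.2, rfl⟩
      · intro z hz
        obtain ⟨b, hb, rfl⟩ := (hφ z).1 hz
        rw [mem_img]
        exact ⟨b, hB.1 b hb, rfl⟩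
    rw [eq_top_iff]
    intro x _
    have h6 : E (opair x.1 x.1) h := by
      rw [e1, ← e2, mem_img]
      exact ⟨x.1, x.2, rfl⟩
    obtain ⟨y, z, hy, hz, e⟩ := hh.1.1 _ h6
    rw [isOP_iff, opair_inj] at e
    rw [← e.2] at hz
    exact ((hcl2 B x.1).1 hz).2

/-- module FRI -/
theorem fri (h1 : GPIStmt) (h2 : GPGStmt) (h3 : GENStmt) : FRIStmt := by
  intro N _ _ hS G m B hG hB
  refine ⟨hB.1, fun K k f hK hf => ?_⟩
  obtain ⟨_, hm⟩ := h1 N G m hG
  obtain ⟨_, hk⟩ := h1 N K k hK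
  obtain ⟨hinj, hgen⟩ := hB.2 hm
  -- the function
  have hf4 : ∀ a : EX G B, ∃ y : {x : N // E x K}, E (opair a.1.1 y.1) f ∧
      ∀ y', E (opair a.1.1 y') f → y' = y.1 := by
    intro a
    obtain ⟨y, hy, hu⟩ := hf.2 a.1.1 a.2
    rw [pairIn_iff] at hy
    obtain ⟨x', y', hx', hy', e⟩ := hf.1 _ hy
    rw [isOP_iff, opair_inj] at e
    obtain ⟨rfl, rfl⟩ := e
    exact ⟨⟨y, hy'⟩, hy, fun y' h' => hu y' (pairIn_iff.2 h')⟩
  choose F hF hFu using hf4
  have hfF : ∀ z, E z f ↔ ∃ a : EX G B, z = opair a.1.1 (F a).1 := by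
    intro z
    constructor
    · intro hz
      obtain ⟨x, y, hx, hy, e⟩ := hf.1 z hz
      rw [isOP_iff] at e
      subst e
      refine ⟨⟨⟨x, hB.1 x hx⟩, hx⟩, ?_⟩
      rw [opair_inj]
      exact ⟨rfl, hFu ⟨⟨x, hB.1 x hx⟩, hx⟩ y hz⟩
    · rintro ⟨a, rfl⟩
      exact hF a
  -- the homomorphism
  let L := FreeGroup.lift (fun b : EX G B => (b : {x : N // E x G}))
  have hsurj : Function.Surjective L := by
    rw [← MonoidHom.range_eq_top, FreeGroup.range_lift_eq_closure, Subtype.range_coe]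
    exact hgen
  let Le : FreeGroup (EX G B) ≃* {x : N // E x G} := MulEquiv.ofBijective L ⟨hinj, hsurj⟩
  let φ : {x : N // E x G} →* {x : N // E x K} := (FreeGroup.lift F).comp Le.symm.toMonoidHom
  have hφB : ∀ a : EX G B, φ a.1 = F a := by
    intro a
    have : Le (FreeGroup.of a) = a.1 := by
      show L (FreeGroup.of a) = a.1
      simp [L]
    show FreeGroup.lift F (Le.symm a.1) = F a
    rw [← this, MulEquiv.symm_apply_apply, FreeGroup.lift_apply_of]
  -- the product group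
  let P : N := prod G K
  have hP : ∀ p : {x : N // E x P}, ∃ q : {x : N // E x G} × {x : N // E x K},
      p.1 = opair q.1.1 q.2.1 := by
    intro p
    obtain ⟨a, b, ha, hb, e⟩ := mem_prod'.1 p.2
    exact ⟨(⟨a, ha⟩, ⟨b, hb⟩), e⟩
  let pr : {x : N // E x G} × {x : N // E x K} → {x : N // E x P} := fun q =>
    ⟨opair q.1.1 q.2.1, mem_prod.2 ⟨q.1.2, q.2.2⟩⟩
  have hpr : Function.Bijective pr := by
    constructor
    · rintro ⟨a, b⟩ ⟨a', b'⟩ h
      have := congrArg Subtype.val h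
      simp only [pr, opair_inj] at this
      exact Prod.ext (Subtype.ext this.1) (Subtype.ext this.2)
    · intro p
      obtain ⟨q, hq⟩ := hP p
      exact ⟨q, Subtype.ext hq.symm⟩
  let ε := Equiv.ofBijective pr hpr
  letI : Group {x : N // E x P} := ε.symm.group
  have hε : ∀ x y, ε (x * y) = ε x * ε y := by
    intro x y
    have := (ε.symm.mulEquiv).map_mul (ε x) (ε y)
    simp only [Equiv.mulEquiv_apply, Equiv.symm_apply_apply] at this
    rw [← this, Equiv.apply_symm_apply]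
  let mP : N := sep (prod (prod P P) P) (fun t => ∃ a a' b b' c c',
    t = opair (opair (opair a a') (opair b b')) (opair c c') ∧ E (opair (opair a b) c) m ∧
      E (opair (opair a' b') c') k)
  have hRep : Rep P mP := by
    intro x y z
    obtain ⟨x, rfl⟩ := ε.surjective x
    obtain ⟨y, rfl⟩ := ε.surjective y
    obtain ⟨z, rfl⟩ := ε.surjective z
    rw [← hε, ε.injective.eq_iff, trp_iff]
    show E _ (sep (prod (prod P P) P) (fun t => ∃ a a' b b' c c',
      t = opair (opair (opair a a') (opair b b')) (opair c c') ∧ E (opair (opair a b) c) m ∧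
        E (opair (opair a' b') c') k)) ↔ _
    rw [mem_sep]
    constructor
    · rintro ⟨_, a, a', b, b', c, c', e, e1, e2⟩
      have e' : opair (opair (opair x.1.1 x.2.1) (opair y.1.1 y.2.1)) (opair z.1.1 z.2.1) =
        opair (opair (opair a a') (opair b b')) (opair c c') := e
      simp only [opair_inj] at e'
      obtain ⟨⟨⟨rfl, rfl⟩, rfl, rfl⟩, rfl, rfl⟩ := e'
      exact Prod.ext ((hm _ _ _).1 (trp_iff.2 e1)) ((hk _ _ _).1 (trp_iff.2 e2))
    · intro e
      subst e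
      refine ⟨?_, x.1.1, x.2.1, y.1.1, y.2.1, (x * y).1.1, (x * y).2.1, rfl,
        trp_iff.1 ((hm _ _ _).2 rfl), trp_iff.1 ((hk _ _ _).2 rfl)⟩
      rw [mem_prod, mem_prod]
      exact ⟨⟨(ε x).2, (ε y).2⟩, (ε (x * y)).2⟩
  obtain ⟨cl, hcl, hcl2, -⟩ := h3 N hS P mP hRep
  -- the graph
  let γ : {x : N // E x G} →* {x : N // E x P} := MonoidHom.mk' (fun a => ε (a, φ a)) (by
    intro a b
    rw [← hε, map_mul]
    rfl)
  have hcl3 : Subgroup.closure (EX P f) = γ.range := by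
    have e1 : EX P f = γ '' (EX G B) := by
      ext z
      constructor
      · intro hz
        obtain ⟨a, ha⟩ := (hfF z.1).1 hz
        refine ⟨a.1, a.2, Subtype.ext ?_⟩
        rw [ha, ← hφB]
        rfl
      · rintro ⟨a, ha, rfl⟩
        refine (hfF _).2 ⟨⟨a, ha⟩, ?_⟩
        rw [← hφB]
        rfl
    rw [e1, ← MonoidHom.map_closure, hgen]
    exact (MonoidHom.range_eq_map γ).symm
  have hh : ∀ z, E z (cl f) ↔ ∃ a, z = opair a.1 (φ a).1 := by
    intro z
    rw [hcl2]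
    constructor
    · rintro ⟨hz, h⟩
      rw [hcl3] at h
      obtain ⟨a, ha⟩ := h
      exact ⟨a, (congrArg Subtype.val ha).symm⟩
    · rintro ⟨a, rfl⟩
      refine ⟨mem_prod.2 ⟨a.2, (φ a).2⟩, ?_⟩
      rw [hcl3]
      exact ⟨a, rfl⟩
  refine ⟨cl f, ⟨isHom_of_hom hm hk φ hh, ?_⟩, ?_⟩
  · intro z hz
    obtain ⟨a, rfl⟩ := (hfF z).1 hz
    rw [hh]
    exact ⟨a.1, by rw [hφB]⟩
  · intro h' hh' hfh'
    obtain ⟨ψ, hψ⟩ := hom_of_isHom hm hk hh'
    have e1 : ψ = φ := by
      refine MonoidHom.eq_of_eqOn_dense hgen ?_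
      intro a ha
      rw [hφB ⟨a, ha⟩]
      have h6 := hfh' _ ((hfF _).2 ⟨⟨a, ha⟩, rfl⟩)
      rw [hψ] at h6
      obtain ⟨a', ha'⟩ := h6
      rw [opair_inj] at ha'
      have : a' = a := Subtype.ext ha'.1.symm
      rw [this] at ha'
      exact Subtype.ext ha'.2.symm
    refine ext fun z => ?_
    rw [hψ, hh, e1]

end AO
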