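import Pool.Agent.H98.AO.GStmts
import Pool.Agent.H13.MA.Real

/-!
Groups inside a model and groups of Lean: modules GPI, GPJ, GPG, GHM.
-/

set_option linter.unusedVariables false
set_option linter.unusedSectionVars false
set_option synthInstance.maxSize 100000

namespace AO

open SW

section
variable {N : Type} [SetStr N] [ZF N]

/-- module GPI -/
theorem gpi : GPIStmt := by
  intro N _ _ G m hG
  obtain ⟨⟨hex, hun⟩, hass, e, he, hid, hinv⟩ := hG
  -- the operation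
  let X := {x : N // E x G}
  let op : X → X → X := fun a b => ⟨(hex a.1 b.1 a.2 b.2).choose,
    (hex a.1 b.1 a.2 b.2).choose_spec.1⟩
  have hop : ∀ a b : X, Trp a.1 b.1 (op a b).1 m := fun a b =>
    (hex a.1 b.1 a.2 b.2).choose_spec.2
  have hop' : ∀ a b c : X, Trp a.1 b.1 c.1 m ↔ op a b = c := by
    intro a b c
    constructor
    · intro h
      exact Subtype.ext (hun a.1 b.1 _ _ a.2 b.2 (hop a b) h)
    · rintro rfl
      exact hop a b
  let iv : X → X := fun a => ⟨(hinv a.1 a.2).choose, (hinv a.1 a.2).choose_spec.1⟩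
  have hiv : ∀ a : X, Trp (iv a).1 a.1 e m := fun a => (hinv a.1 a.2).choose_spec.2.2
  let grp : Group X := {
    mul := op
    one := ⟨e, he⟩
    inv := iv
    mul_assoc := by
      intro a b c
      show op (op a b) c = op a (op b c)
      have h := hass a.1 b.1 c.1 (op a b).1 (op b c).1 (op (op a b) c).1 a.2 b.2 c.2
        (hop a b) (hop (op a b) c) (hop b c)
      exact ((hop' a (op b c) (op (op a b) c)).1 h).symm
    one_mul := by
      intro a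
      exact (hop' ⟨e, he⟩ a a).1 (hid a.1 a.2).1
    mul_one := by
      intro a
      exact (hop' a ⟨e, he⟩ a).1 (hid a.1 a.2).2
    inv_mul_cancel := by
      intro a
      exact (hop' (iv a) a ⟨e, he⟩).1 (hiv a) }
  exact ⟨grp, fun a b c => hop' a b c⟩

/-- module GPG -/
theorem gpg : GPGStmt := by
  intro N _ _ G m _ hR hc
  refine ⟨⟨fun a b ha hb => ?_, fun a b c c' ha hb h h' => ?_⟩, ?_, ?_⟩
  · exact ⟨((⟨a, ha⟩ : {x : N // E x G}) * ⟨b, hb⟩).1, ((⟨a, ha⟩ : {x : N // E x G}) * ⟨b, hb⟩).2,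
      (hR ⟨a, ha⟩ ⟨b, hb⟩ _).2 rfl⟩
  · have hcG := hc a b c ha hb h
    have hcG' := hc a b c' ha hb h'
    have e1 := (hR ⟨a, ha⟩ ⟨b, hb⟩ ⟨c, hcG⟩).1 h
    have e2 := (hR ⟨a, ha⟩ ⟨b, hb⟩ ⟨c', hcG'⟩).1 h'
    exact congrArg Subtype.val (e1.symm.trans e2)
  · intro a b c x y s ha hb hcc h1 h2 h3
    have hx := hc a b x ha hb h1
    have hs := hc x c s hx hcc h2
    have hy := hc b c y hb hcc h3
    have e1 := (hR ⟨a, ha⟩ ⟨b, hb⟩ ⟨x, hx⟩).1 h1
    have e2 := (hR ⟨x, hx⟩ ⟨c, hcc⟩ ⟨s, hs⟩).1 h2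
    have e3 := (hR ⟨b, hb⟩ ⟨c, hcc⟩ ⟨y, hy⟩).1 h3
    refine (hR ⟨a, ha⟩ ⟨y, hy⟩ ⟨s, hs⟩).2 ?_
    rw [← e3, ← e2, ← e1, mul_assoc]
  · refine ⟨(1 : {x : N // E x G}).1, (1 : {x : N // E x G}).2, fun a ha => ⟨?_, ?_⟩,
      fun a ha => ?_⟩
    · exact (hR 1 ⟨a, ha⟩ ⟨a, ha⟩).2 (one_mul _)
    · exact (hR ⟨a, ha⟩ 1 ⟨a, ha⟩).2 (mul_one _)
    · refine ⟨((⟨a, ha⟩ : {x : N // E x G})⁻¹).1, ((⟨a, ha⟩ : {x : N // E x G})⁻¹).2, ?_, ?_⟩
      · exact (hR ⟨a, ha⟩ (⟨a, ha⟩⁻¹) 1).2 (mul_inv_cancel _)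
      · exact (hR (⟨a, ha⟩⁻¹) ⟨a, ha⟩ 1).2 (inv_mul_cancel _)

/-- module GPJ -/
theorem gpj : GPJStmt := by
  intro N _ _ G m H hG _ hR hHG
  obtain ⟨⟨hex, hun⟩, hass, e, he, hid, hinv⟩ := hG
  have he1 : (⟨e, he⟩ : {x : N // E x G}) = 1 := by
    have := (hR ⟨e, he⟩ 1 1).1 (hid _ (1 : {x : N // E x G}).2).1
    rw [mul_one] at this
    exact this
  constructor
  · rintro ⟨⟨hex', hun'⟩, hass', e', he', hid', hinv'⟩
    have hmem : ∀ (a b : {x : N // E x G}), E a.1 H → E b.1 H → E (a * b).1 H := by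
      intro a b ha hb
      obtain ⟨c, hc, habc⟩ := hex' a.1 b.1 ha hb
      have := (hR a b ⟨c, hHG c hc⟩).1 habc
      rw [this]
      exact hc
    have he2 : (⟨e', hHG e' he'⟩ : {x : N // E x G}) = 1 := by
      have := (hR ⟨e', hHG e' he'⟩ ⟨e', hHG e' he'⟩ ⟨e', hHG e' he'⟩).1 (hid' e' he').1
      exact mul_eq_left.1 this
    refine ⟨{ carrier := {x | E x.1 H}, mul_mem' := fun {a b} ha hb => hmem a b ha hb,
              one_mem' := ?_, inv_mem' := ?_ }, fun x => Iff.rfl⟩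
    · show E (1 : {x : N // E x G}).1 H
      rw [← he2]
      exact he'
    · intro a ha
      show E (a⁻¹).1 H
      obtain ⟨b, hb, h1, h2⟩ := hinv' a.1 ha
      have h3 := (hR a ⟨b, hHG b hb⟩ ⟨e', hHG e' he'⟩).1 h1
      rw [he2] at h3
      rw [inv_eq_of_mul_eq_one_right h3]
      exact hb
  · rintro ⟨S, hS⟩
    have h1H : E (1 : {x : N // E x G}).1 H := (hS 1).1 S.one_mem
    refine ⟨⟨fun a b ha hb => ?_, fun a b c c' ha hb h h' => ?_⟩, ?_, ?_⟩
    · have h := S.mul_mem ((hS ⟨a, hHG a ha⟩).2 ha) ((hS ⟨b, hHG b hb⟩).2 hb)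
      exact ⟨_, (hS _).1 h, (hR ⟨a, hHG a ha⟩ ⟨b, hHG b hb⟩ _).2 rfl⟩
    · exact hun a b c c' (hHG a ha) (hHG b hb) h h'
    · intro a b c x y s ha hb hc h1 h2 h3
      exact hass a b c x y s (hHG a ha) (hHG b hb) (hHG c hc) h1 h2 h3
    · refine ⟨(1 : {x : N // E x G}).1, h1H, fun a ha => ⟨?_, ?_⟩, fun a ha => ?_⟩
      · exact (hR 1 ⟨a, hHG a ha⟩ ⟨a, hHG a ha⟩).2 (one_mul _)
      · exact (hR ⟨a, hHG a ha⟩ 1 ⟨a, hHG a ha⟩).2 (mul_one _)
      · have h := S.inv_mem ((hS ⟨a, hHG a ha⟩).2 ha)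
        refine ⟨_, (hS _).1 h, ?_, ?_⟩
        · exact (hR ⟨a, hHG a ha⟩ (⟨a, hHG a ha⟩⁻¹) 1).2 (mul_inv_cancel _)
        · exact (hR (⟨a, hHG a ha⟩⁻¹) ⟨a, hHG a ha⟩ 1).2 (inv_mul_cancel _)

/-- module GHM -/
theorem ghm (h1 : GPIStmt) (h2 : GPGStmt) : GHMStmt := by
  intro N _ _ c m L h hD
  have hT : ∀ a b d, E a (CUR.KS c) → E b (CUR.KS c) → (Trp a b d m ↔
      E d (CUR.KS c) ∧ h a * h b = h d) := by
    intro a b d ha hb
    rw [trp_iff, hD.mem]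
    constructor
    · rintro ⟨a', b', d', ha', hb', hd', e, hh⟩
      rw [opair_inj, opair_inj] at e
      obtain ⟨⟨rfl, rfl⟩, rfl⟩ := e
      exact ⟨hd', hh⟩
    · rintro ⟨hd, hh⟩
      exact ⟨a, b, d, ha, hb, hd, rfl, hh⟩
  have hGV : ∀ a, E a (CUR.KS c) → h a ∈ GV (ZZ) (VN N) := fun a ha =>
    (hD.rng _).1 ⟨a, ha, rfl⟩
  let X := {x : N // E x (CUR.KS c)}
  -- the group structure
  have hmul : ∀ a b : X, ∃ d, E d (CUR.KS c) ∧ h d = h a.1 * h b.1 := by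
    intro a b
    exact (hD.rng _).2 ((GV (ZZ) (VN N)).mul_mem (hGV _ a.2) (hGV _ b.2))
  have hone : ∃ d, E d (CUR.KS c) ∧ h d = 1 := (hD.rng _).2 (GV (ZZ) (VN N)).one_mem
  have hinv : ∀ a : X, ∃ d, E d (CUR.KS c) ∧ h d = (h a.1)⁻¹ := fun a =>
    (hD.rng _).2 ((GV (ZZ) (VN N)).inv_mem (hGV _ a.2))
  have hinj : ∀ a b : X, h a.1 = h b.1 → a = b := fun a b hab =>
    Subtype.ext (hD.inj a.1 b.1 a.2 b.2 hab)
  let mul : X → X → X := fun a b => ⟨(hmul a b).choose, (hmul a b).choose_spec.1⟩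
  have hmul' : ∀ a b : X, h (mul a b).1 = h a.1 * h b.1 := fun a b => (hmul a b).choose_spec.2
  let one : X := ⟨hone.choose, hone.choose_spec.1⟩
  have hone' : h one.1 = 1 := hone.choose_spec.2
  let inv : X → X := fun a => ⟨(hinv a).choose, (hinv a).choose_spec.1⟩
  have hinv' : ∀ a : X, h (inv a).1 = (h a.1)⁻¹ := fun a => (hinv a).choose_spec.2
  let grp : Group X := {
    mul := mul
    one := one
    inv := inv
    mul_assoc := by
      intro a b c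
      refine hinj (mul (mul a b) c) (mul a (mul b c)) ?_
      rw [hmul', hmul', hmul', hmul', mul_assoc]
    one_mul := by
      intro a
      refine hinj (mul one a) a ?_
      rw [hmul', hone', one_mul]
    mul_one := by
      intro a
      refine hinj (mul a one) a ?_
      rw [hmul', hone', mul_one]
    inv_mul_cancel := by
      intro a
      refine hinj (mul (inv a) a) one ?_
      rw [hmul', hone', hinv', inv_mul_cancel] }
  have hG : IsGroup (CUR.KS c) m := by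
    refine h2 N (CUR.KS c) m ?_ ?_
    · intro a b d
      rw [hT _ _ _ a.2 b.2]
      constructor
      · rintro ⟨_, hh⟩
        refine hinj (mul a b) d ?_
        rw [hmul', hh]
      · intro hh
        refine ⟨d.2, ?_⟩
        rw [← hh]
        exact (hmul' a b).symm
    · intro a b d ha hb h3
      exact ((hT a b d ha hb).1 h3).1
  refine ⟨hG, fun H hH hHg _ hRep => ?_⟩
  have hHX : ∀ a : {x : N // E x H}, E a.1 (CUR.KS c) := fun a => hH _ a.2
  refine ⟨MonoidHom.mk' (fun a => h a.1) ?_, ?_, fun a => rfl⟩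
  · intro a b
    have h3 := (hRep a b (a * b)).2 rfl
    exact ((hT _ _ _ (hHX a) (hHX b)).1 h3).2.symm
  · intro a b hab
    exact Subtype.ext (hD.inj a.1 b.1 (hHX a) (hHX b) hab)

end

end AO
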